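import Pool.Agent.H83.X.T3
import Pool.Agent.H40.LF.SEB

/-!
# Row XEX of the board x83_modules: the exceptional sets
-/

set_option autoImplicit false

open MeasureTheory ProbabilityTheory Filter Topology Finset
open scoped Nat ENNReal

namespace Pool.Agent.H32.X

open Pool.Agent.H83.X Pool.Agent.H28.LF
open Pool.Agent.H24.T2 (Pset)
open Pool.Agent.H67.AG (avgP)
open Pool.Agent.H40.LF (avg_meas avg_nonneg avg_mono avg_const avg_val meas_flY meas_ExY)

theorem pf_XEX : T_XEX := by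
  intro PX P κ _ h m hS hB hne
  have := hS.prob
  have hEm : ∀ p, MeasurableSet (flY p ∩ (ExY p 1 ∪ ExY p (h + 1))) := fun p =>
    (meas_flY p).inter ((meas_ExY p 1).union (meas_ExY p (h + 1)))
  refine ⟨avg_meas κ hEm m, ⟨2 ^ (m + 1), fun ω => ?_⟩, ?_⟩
  · rw [abs_of_nonneg (avg_nonneg (fun p => mul_nonneg (Nat.cast_nonneg _) measureReal_nonneg) m)]
    refine le_trans (avg_mono (G := fun _ => 2 ^ (m + 1)) m fun p hp => ?_) (avg_const m hne _).le
    have hpm : p ≤ 2 ^ (m + 1) := (mem_Ioc.1 (mem_filter.1 hp).1).2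
    have hpm' : (p : ℝ) ≤ 2 ^ (m + 1) := by exact_mod_cast hpm
    have h1 : (κ ω).real (flY p ∩ (ExY p 1 ∪ ExY p (h + 1))) ≤ 1 := measureReal_le_one
    have h2 : 0 ≤ (κ ω).real (flY p ∩ (ExY p 1 ∪ ExY p (h + 1))) := measureReal_nonneg
    have h3 : (0 : ℝ) ≤ p := Nat.cast_nonneg p
    nlinarith
  · rw [avg_val P κ hB hEm m]
    refine le_trans (avg_mono (G := fun _ => 2 / 2 ^ m) m fun p hp => ?_) (avg_const m hne _).le
    have hpp : p.Prime := (mem_filter.1 hp).2.1
    have hpm : 2 ^ m < p := (mem_Ioc.1 (mem_filter.1 hp).1).1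
    have hpm' : (2 : ℝ) ^ m < p := by exact_mod_cast hpm
    have hp0 : (0 : ℝ) < p := by exact_mod_cast hpp.pos
    have h1 : P.real (flY p ∩ (ExY p 1 ∪ ExY p (h + 1))) ≤
        P.real (flY p ∩ ExY p 1) + P.real (flY p ∩ ExY p (h + 1)) := by
      rw [Set.inter_union_distrib_left]
      exact measureReal_union_le _ _
    have h2 := hS.rel p hpp 1 one_pos
    have h3 := hS.rel p hpp (h + 1) (Nat.succ_pos h)
    calc (p : ℝ) * P.real (flY p ∩ (ExY p 1 ∪ ExY p (h + 1))) ≤ p * (1 / (p : ℝ) ^ 2 + 1 / (p : ℝ) ^ 2) :=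
          mul_le_mul_of_nonneg_left (by linarith) hp0.le
      _ = 2 / p := by field_simp; ring
      _ ≤ 2 / 2 ^ m := div_le_div_of_nonneg_left (by norm_num) (by positivity) hpm'.le

end Pool.Agent.H32.X
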